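import Pool.Agent.MC95.Hard

/-!
# MP_5d0714_lc: misère checkers is EXPTIME-hard

Definitions of the statement: `Pool/Agent/MC95/Rules.lean` (the rules, the winning condition, the
encoding of positions, the language `MISERE`) and `Pool/Agent/MEternal/Language.lean` (the class
`EXPTIME`).
-/

namespace Pool.Agent.Results.MP_5d0714_lc.ExptimeHard

open Pool.Agent.MEternal Pool.Agent.MC95

/-- Every language in EXPTIME is many-one reducible to MISÈRE CHECKERS in polynomial time. -/
theorem result : ∀ L ∈ EXPTIME, ∃ f : List Bool → List Bool,
    Nonempty (Turing.TM2ComputableInPolyTime (id : List Bool → List Bool)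
      (id : List Bool → List Bool) f) ∧ ∀ w, w ∈ L ↔ f w ∈ MISERE :=
  fun L hL => misere_hard L hL

end Pool.Agent.Results.MP_5d0714_lc.ExptimeHard
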